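import Pool.Agent.T9h55.VM.Main

open Finset

/-!
Unconditional lower bound for the variance `G(X,k)` of primes in the reduced residue classes
modulo `k`, with a power saving exceptional set of moduli whose size is linked to the constant:
`G(X,k) ≥ X ((1+σ) log k - log X - ε log X)` for all real `X ≥ k` and all but `K^(σ-κ)` of the
moduli `k` in `(K, 2K]`, uniformly for `0 ≤ σ ≤ 1`.  For `σ = 1` the bound
`X (2 log k - log X - ε log X)` holds for almost all moduli.
-/

namespace Pool.Agent.Results.MP_5dd4bb_nt.ExceptionalSetTradeoff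

open Classical in
/-- For every `ε > 0` there are `κ > 0` and `K₀` such that for all integers `K ≥ K₀` and all real
`σ` in `[0, 1]`: for all but at most `K^(σ-κ)` integers `k` in `(K, 2K]` and for every real
`X ≥ k`, `G(X,k) ≥ X ((1+σ) log k - log X - ε log X)`. -/
theorem result (ε : ℝ) (hε : 0 < ε) : ∃ κ K₀ : ℝ, 0 < κ ∧ ∀ (K : ℕ) (σ : ℝ), K₀ ≤ K →
    0 ≤ σ → σ ≤ 1 →
    (((Ioc K (2 * K)).filter (fun k : ℕ => ∃ X : ℝ, (k : ℝ) ≤ X ∧
      ∑ A ∈ (range k).filter (fun A => A.Coprime k),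
        ((∑ n ∈ (Icc 1 ⌊X⌋₊).filter (fun n => n ≡ A [MOD k]), ArithmeticFunction.vonMangoldt n)
          - X / Nat.totient k) ^ 2
      < X * ((1 + σ) * Real.log k - Real.log X - ε * Real.log X))).card : ℝ) ≤
      (K : ℝ) ^ (σ - κ) :=
  T9h55.VM.main ε hε

end Pool.Agent.Results.MP_5dd4bb_nt.ExceptionalSetTradeoff
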