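import Pool.Agent.T9h55.VM.Sparse

/-!
# The variance of primes for EVERY large member of thin sequences of moduli

For every `c > 1`, `ε > 0` and all `α > 0` outside a set of Hausdorff dimension less than one, every
large member `k = ⌊α n ^ c⌋` of the sequence satisfies, for all real `X ≥ k`,
`G(X,k) ≥ X ((2 - 1/c) log k - log X - ε log X)`.
-/

set_option autoImplicit false

namespace Pool.Agent.Results.MP_5dd4bb_nt.SparseEveryLargeTerm

open Finset

/-- `ψ(X; Q, A)`: the sum of `Λ(n)` over the `n ≤ X` with `n ≡ A mod Q`. -/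
noncomputable def psi (X : ℝ) (Q A : ℕ) : ℝ :=
  ∑ n ∈ (Icc 1 ⌊X⌋₊).filter (fun n => n ≡ A [MOD Q]), ArithmeticFunction.vonMangoldt n

/-- `G(X, Q)`: the sum of `(ψ(X; Q, A) - X/φ(Q))²` over the reduced residue classes `A` modulo `Q`. -/
noncomputable def G (X : ℝ) (Q : ℕ) : ℝ :=
  ∑ A ∈ (range Q).filter (fun A => A.Coprime Q), (psi X Q A - X / Nat.totient Q) ^ 2

/-- For every `c > 1` and `ε > 0` there is a set `E` of real numbers of Hausdorff dimension less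
than one such that for every `α > 0` outside `E` and ALL sufficiently large `n` the modulus
`k = ⌊α n ^ c⌋` satisfies `G(X, k) ≥ X ((2 - 1/c) log k - log X - ε log X)` for all real `X ≥ k`. -/
theorem result (c ε : ℝ) (hc : 1 < c) (hε : 0 < ε) : ∃ E : Set ℝ, dimH E < 1 ∧
    ∀ α : ℝ, 0 < α → α ∉ E → ∃ n₀ : ℕ, ∀ n : ℕ, n₀ ≤ n → 1 ≤ ⌊α * (n : ℝ) ^ c⌋₊ ∧
      ∀ X : ℝ, (⌊α * (n : ℝ) ^ c⌋₊ : ℝ) ≤ X →
        X * ((2 - 1 / c) * Real.log ⌊α * (n : ℝ) ^ c⌋₊ - Real.log X - ε * Real.log X) ≤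
          G X ⌊α * (n : ℝ) ^ c⌋₊ :=
  T9h55.VM.sparse c ε hc hε

end Pool.Agent.Results.MP_5dd4bb_nt.SparseEveryLargeTerm
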