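import Pool.Agent.T9h59.OR.C
import Pool.Agent.T9h59.VP.Count

/-!
# The variance of the primes for all moduli near the orders of the subgroups of `F_p^*`

`G(Y, k)` is the sum of `(ψ(Y; k, A) - Y/φ(k))²` over the reduced classes `A` modulo `k`. Let `G'` be a real sequence with steps
bounded below by a positive constant and growth at most `v^d`, `θ ≥ 0`, `0 < σ ≤ 1` and `d σ + θ ≤ 1`, `0 ≤ γ < 1`, `ε > 0`. For
all primes `p ≤ X` but `O(X^(1 - ρ))`, with a `ρ > (1 - γ) (1 - d σ - θ) / 2` (so `ρ > 0` in all cases): for ALL subgroups of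
`F_p^*` which contain an integer `a`, `2 ≤ a ≤ X^γ`, for example those generated by such an integer, with the order `w`, ALL
moduli `k ≥ 1` with `|k - G' w| ≤ w^θ` have the property: for ALL real `Y ≥ k`,
`G(Y, k) ≥ Y ((1 + σ) log k - log Y - ε log Y)`. For `d = 1`, `θ = 0`, `σ = 1`, `G' w = w` this is the bound known for almost all
moduli, `2 log k - log Y - ε log Y`, for the moduli `k = w`.

The number of the `w` which occur is not restricted, one prime has many subgroups of this kind, and one `w` can occur for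
many primes; the proof counts the primes with `p ∣ a ^ w - 1` for small `w`, and the cofactors `(p - 1) / w` for large `w`
(`T9h59/OR`). The number of the exceptional moduli is from `T9h55/VM` (MP_5dd4bb_nt.ExceptionalSetTradeoff).
-/

set_option autoImplicit false

namespace Pool.Agent.Results.MP_5dd4bb_nt.SubgroupOrders

open Pool.Agent.N733.TG (Expanding expanding_pow)
open Pool.Agent.T9h59.OR (SubOrder sub_good_nat subOrder_orderOf)
open Pool.Agent.T9h59.VP (Good count)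

/-- **The variance of the primes for the moduli near the orders of the subgroups of `F_p^*`.** `Good σ ε k`: for ALL real
`Y ≥ k`, `G(Y, k) ≥ Y ((1 + σ) log k - log Y - ε log Y)`. Let `G'` have steps `≥ a > 0` and growth at most `v ^ d`, let `θ ≥ 0`,
`0 < σ ≤ 1`, `d σ + θ ≤ 1`, `0 ≤ γ < 1` and `ε > 0`. There are `ρ > (1 - γ) (1 - d σ - θ) / 2` and `C` such that for all primes
`p ≤ X` but `C X^(1 - ρ)`: for the order `w` of EVERY subgroup of `F_p^*` which contains an integer `a`, `2 ≤ a ≤ X^γ`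
(`SubOrder (X ^ γ) p w`), ALL moduli `k ≥ 1` with `|k - G' w| ≤ w ^ θ` satisfy `Good σ ε k`. The order of `a` modulo `p` is such
a number `w`, and `α v ^ d` with `α > 0`, `d ≥ 1` is an example of `G'`. -/
theorem result :
    (∀ (G' : ℕ → ℝ) (d θ σ ε γ : ℝ), Expanding G' d → 0 ≤ θ → 0 < σ → σ ≤ 1 → d * σ + θ ≤ 1 → 0 < ε → 0 ≤ γ → γ < 1 →
      ∃ ρ C : ℝ, (1 - γ) * (1 - (d * σ + θ)) / 2 < ρ ∧ ∀ X : ℕ, 1 ≤ X →
      ({p : ℕ | p.Prime ∧ p ≤ X ∧ ¬ ∀ w, SubOrder ((X : ℝ) ^ γ) p w → ∀ k : ℕ, 1 ≤ k →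
        |(k : ℝ) - G' w| ≤ (w : ℝ) ^ θ → Good σ ε k}.ncard : ℝ) ≤ C * (X : ℝ) ^ (1 - ρ)) ∧
    (∀ (B : ℝ) (p a : ℕ), p.Prime → 2 ≤ a → (a : ℝ) ≤ B → ¬ p ∣ a → SubOrder B p (orderOf (a : ZMod p))) ∧
    ∀ α d : ℝ, 0 < α → 1 ≤ d → Expanding (fun v => α * (v : ℝ) ^ d) d := by
  refine ⟨fun G' d θ σ ε γ hG hθ hσ hσ1 h1 hε hγ0 hγ1 => ?_,
    fun B p a hp ha haB hpa => subOrder_orderOf hp ha haB hpa, fun α d hα hd => expanding_pow hα hd⟩
  obtain ⟨s, hs0, hs, hcount⟩ := count σ ε hσ hσ1 hε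
  have hd : 0 < d := by
    have := hG.1
    linarith
  have h2 : d * s < d * σ := mul_lt_mul_of_pos_left hs hd
  have hγ : 0 < 1 - γ := by linarith
  obtain ⟨ρ, hρ1, hρ2⟩ := exists_between (show (1 - γ) * (1 - (d * σ + θ)) / 2 < (1 - γ) * (1 - (d * s + θ)) / 2 by
    have := mul_lt_mul_of_pos_left h2 hγ
    nlinarith)
  obtain ⟨C, hC⟩ := sub_good_nat (fun _ => True) (Good σ ε) hG hs0 hθ (by linarith) hcount hγ0 hγ1 hρ2
  refine ⟨ρ, C, hρ1, fun X hX => le_trans (le_of_eq ?_) (hC X hX)⟩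
  simp only [true_imp_iff]

end Pool.Agent.Results.MP_5dd4bb_nt.SubgroupOrders
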