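import Pool.Agent.N760.IT.C
import Pool.Agent.T9h59.VP.Count

/-!
# The variance of the primes for all moduli along the orbits of Euler's function

`G(Y, k)` is the sum of `(ψ(Y; k, A) - Y/φ(k))²` over the reduced classes `A` modulo `k`. Let `f` be a positive multiplicative
function of at most polynomial growth such that `f p ≤ M p` for the large primes `p`, with different values at different large
primes (the identity, Euler's function, the sum of the divisors). Let `G'` be a real sequence with steps bounded below by a
positive constant and growth at most `v^d`, `θ ≥ 0`, `0 < σ ≤ 1`, `d σ + θ ≤ 1`, `ε > 0`. There is `K(m)` tending to infinity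
such that for almost all `m` and for all `j ≤ K(m)`, with `v = f(φ_j(m))`, `φ_j` the `j`-th iterate of Euler's function, ALL
moduli `k ≥ 1` with `|k - G' v| ≤ v^θ` have the property: for ALL real `Y ≥ k`,
`G(Y, k) ≥ Y ((1 + σ) log k - log Y - ε log Y)`. For `d = 1`, `θ = 0`, `σ = 1`: the bound known for almost all moduli,
`2 log k - log Y - ε log Y`, holds for the moduli `k = φ_j(m)`.

The values of the iterates form a thin set and are taken with very large multiplicities; the result does not follow from
the number of the exceptional moduli. This number is from `T9h55/VM` (MP_5dd4bb_nt.ExceptionalSetTradeoff), the bounds for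
preimages are from `N760/IT`.
-/

set_option autoImplicit false

open Filter

namespace Pool.Agent.Results.MP_5dd4bb_nt.TotientOrbits

open Pool.Agent.N733.TG (LM Expanding expanding_pow lm_totient lm_sigma)
open Pool.Agent.N760.IT (orb lm_id orbit_good_nat)
open Pool.Agent.N826.IT.Orb (AlmostAll)
open Pool.Agent.T9h59.VP (Good count)

/-- **The variance of the primes for the moduli along the orbits of Euler's function.** `Good σ ε k`: for ALL real `Y ≥ k`,
`G(Y, k) ≥ Y ((1 + σ) log k - log Y - ε log Y)`. Let `f` be multiplicative and positive, of at most polynomial growth, with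
`f p ≤ M p` at the large primes, and injective there. Let `G'` have steps `≥ a > 0` and growth at most `v ^ d`, and let `θ ≥ 0`,
`0 < σ ≤ 1`, `d σ + θ ≤ 1`, `ε > 0`. Then there is `K(m)` tending to infinity such that for almost all `m`, for all `j ≤ K(m)`,
with `v = f(φ_j(m))` (`orb f j m`), ALL moduli `k ≥ 1` with `|k - G' v| ≤ v ^ θ` satisfy `Good σ ε k`. The identity, Euler's
function and the sum of the divisors are examples of such functions `f`, and `α v ^ d` with `α > 0`, `d ≥ 1` is an example of
`G'`. -/
theorem result :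
    (∀ f : ℕ → ℕ, LM f → ∀ (G' : ℕ → ℝ) (d θ σ ε : ℝ), Expanding G' d → 0 ≤ θ → 0 < σ → σ ≤ 1 → d * σ + θ ≤ 1 → 0 < ε →
      ∃ K : ℕ → ℕ, Tendsto K atTop atTop ∧
        AlmostAll (fun m => ∀ j ≤ K m, ∀ k : ℕ, 1 ≤ k →
          |(k : ℝ) - G' (orb f j m)| ≤ (orb f j m : ℝ) ^ θ → Good σ ε k)) ∧
    (LM (fun m => m) ∧ LM Nat.totient ∧ LM (fun m => ∑ d ∈ m.divisors, d)) ∧
    ∀ α d : ℝ, 0 < α → 1 ≤ d → Expanding (fun v => α * (v : ℝ) ^ d) d := by
  refine ⟨fun f hf G' d θ σ ε hG hθ hσ hσ1 h1 hε => ?_, ⟨lm_id, lm_totient, lm_sigma⟩,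
    fun α d hα hd => expanding_pow hα hd⟩
  obtain ⟨s, hs0, hs, hcount⟩ := count σ ε hσ hσ1 hε
  have hd : 0 < d := by
    have := hG.1
    linarith
  have h2 : d * s < d * σ := mul_lt_mul_of_pos_left hs hd
  obtain ⟨K, hK, h⟩ := orbit_good_nat (fun _ => True) (Good σ ε) hf hG hs0 hθ (by linarith) hcount
  exact ⟨K, hK, by simpa only [true_imp_iff] using h⟩

end Pool.Agent.Results.MP_5dd4bb_nt.TotientOrbits
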